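import Mathlib
import Pool.Agent.V11320.TSD

set_option autoImplicit false
open MeasureTheory
open scoped ENNReal NNReal BigOperators Topology Pointwise

namespace Pool.Agent.Results.MP_d9d0cb_pr.RateFails

open Pool.Agent.V11320.EdenShape Pool.Agent.V11320.TS

theorem result :
    (∀ (D : ℕ) (μ : Seminorm ℝ (E D)) (α χ : ℝ) (f : E D → ℝ),
      0 < D → (∀ x, x ≠ 0 → 0 < μ x) → 0 < α → α < 1 → 1 < χ → IsWeight α f →
        IsProbabilityMeasure (weightedLaw f) ∧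
        (∀ t₀ : ℝ, weightedLaw f (Ev μ f α χ t₀) = 0) ∧ ¬ RateHolds μ f α χ) ∧
    (∀ α : ℝ, 3 / 5 < α → α < 1 → 1 < 2 / (5 * (1 - α))) ∧
    (∀ D : ℕ, 0 < D → ∀ μ : Seminorm ℝ (E D), (∀ x, x ≠ 0 → 0 < μ x) →
      ¬ ∀ α : ℝ, α < 1 → ∀ f : E D → ℝ, IsWeight α f →
        ∀ χ : ℝ, 0 < χ → χ < 2 / (5 * (1 - α)) → RateHolds μ f α χ) := by
  have h2 : ∀ α : ℝ, 3 / 5 < α → α < 1 → 1 < 2 / (5 * (1 - α)) := by
    intro α h1 h2
    rw [lt_div_iff₀ (by linarith)]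
    linarith
  refine ⟨?_, h2, ?_⟩
  · intro D μ α χ f hD hμ hα0 hα hχ hf
    have h3 : ∀ e, IsProbabilityMeasure (ProbabilityTheory.expMeasure (f (mid e))) := fun e =>
      ProbabilityTheory.isProbabilityMeasure_expMeasure (hf.pos (mid_ne_zero e))
    refine ⟨?_, fun t₀ => Ev_null hD hμ hα0 hα hf hχ t₀, not_rate hD hμ hα0 hα hf hχ⟩
    unfold weightedLaw
    infer_instance
  · intro D hD μ hμ h
    have hf : IsWeight (D := D) (4 / 5) (fun z => ‖z‖ ^ ((4 : ℝ) / 5)) := by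
      refine ⟨fun _ => 1, fun _ _ => one_pos, ⟨0, fun u v _ _ => by simp⟩, fun z _ => by simp⟩
    have h3 := h (4 / 5) (by norm_num) _ hf (3 / 2) (by norm_num) (by norm_num)
    exact not_rate hD hμ (by norm_num) (by norm_num) hf (by norm_num) h3

end Pool.Agent.Results.MP_d9d0cb_pr.RateFails
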